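import Mathlib

set_option autoImplicit false

namespace Pool.Agent.Results.MP_90f83a_nt.NonIntegral

open Finset

/-- `A n k = C(n,k) C(n+k,k)` as a rational number. -/
def A (n k : ℕ) : ℚ := (n.choose k : ℚ) * ((n + k).choose k : ℚ)

/-- `c` is a sequence of Schmidt type coefficients for the exponents `r, s`: for every `n`,
`∑_{k ≤ n} C(n,k)^r C(n+k,k)^r = ∑_{k ≤ n} C(n,k)^s C(n+k,k)^s c_k`. -/
def IsCoeff (r s : ℕ) (c : ℕ → ℚ) : Prop :=
  ∀ n : ℕ, ∑ k ∈ range (n + 1), A n k ^ r = ∑ k ∈ range (n + 1), A n k ^ s * c k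

/-- The coefficients, determined recursively from the triangular system. -/
def coeff (r s : ℕ) : ℕ → ℚ
  | n => (∑ k ∈ range (n + 1), A n k ^ r - ∑ k : Fin n, A n k ^ s * coeff r s k) / A n n ^ s
decreasing_by exact k.2

theorem A_self_ne (n : ℕ) : A n n ≠ 0 := by
  unfold A
  have h1 : 0 < n.choose n := Nat.choose_pos le_rfl
  have h2 : 0 < (n + n).choose n := Nat.choose_pos (by omega)
  positivity

theorem isCoeff_iff (r s : ℕ) (c : ℕ → ℚ) : IsCoeff r s c ↔ c = coeff r s := by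
  have key : ∀ (d : ℕ → ℚ) (n : ℕ),
      (∑ k ∈ range (n + 1), A n k ^ r = ∑ k ∈ range (n + 1), A n k ^ s * d k) ↔
      d n = (∑ k ∈ range (n + 1), A n k ^ r - ∑ k : Fin n, A n k ^ s * d k) / A n n ^ s := by
    intro d n
    have hne : A n n ^ s ≠ 0 := pow_ne_zero _ (A_self_ne n)
    rw [eq_div_iff hne, Finset.sum_range_succ (fun k => A n k ^ s * d k),
      ← Fin.sum_univ_eq_sum_range (fun k => A n k ^ s * d k) n]
    constructor
    · intro h; rw [h]; ring
    · intro h; linarith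
  constructor
  · intro h
    funext n
    induction n using Nat.strong_induction_on with
    | _ n ih =>
      rw [(key c n).1 (h n), coeff]
      congr 2
      refine Finset.sum_congr rfl fun k _ => ?_
      rw [ih k k.2]
  · rintro rfl n
    rw [key]
    rw [coeff]

/-- For all integers `r > s > 1` some coefficient `c_n^{(r,s)}` with `n ≥ 1` is not an
integer.  (The coefficients exist and are unique.) -/
theorem result :
    (∀ r s : ℕ, ∀ c : ℕ → ℚ, IsCoeff r s c ↔ c = coeff r s) ∧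
    ∀ r s : ℕ, 1 < s → s < r → ∃ n : ℕ, 0 < n ∧ ∀ z : ℤ, coeff r s n ≠ (z : ℚ) := by
  refine ⟨isCoeff_iff, ?_⟩
  intro r s hs hsr
  by_contra hcon
  push Not at hcon
  have hIs : IsCoeff r s (coeff r s) := (isCoeff_iff r s _).2 rfl
  set c := coeff r s with hc
  -- the zeroth coefficient is one
  have h0 : c 0 = 1 := by
    have := hIs 0
    simpa [A] using this.symm
  have hz : ∀ n, ∃ z : ℤ, c n = z := by
    intro n
    rcases Nat.eq_zero_or_pos n with h | h
    · exact ⟨1, by rw [h, h0]; norm_num⟩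
    · exact hcon n h
  choose z hz using hz
  obtain ⟨t, ht⟩ : ∃ t, r = s + t := ⟨r - s, by omega⟩
  have ht0 : 0 < t := by omega
  have hz0 : z 0 = 1 := by
    have := hz 0
    rw [h0] at this
    exact_mod_cast this.symm
  -- the integer version of `A`
  let B : ℕ → ℕ → ℤ := fun n k => (n.choose k : ℤ) * ((n + k).choose k : ℤ)
  have hBA : ∀ n k, ((B n k : ℤ) : ℚ) = A n k := by
    intro n k; simp [B, A]
  have hInt : ∀ n, ∑ k ∈ range (n + 1), B n k ^ r = ∑ k ∈ range (n + 1), B n k ^ s * z k := by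
    intro n
    have := hIs n
    have h2 : ((∑ k ∈ range (n + 1), B n k ^ r : ℤ) : ℚ)
        = ((∑ k ∈ range (n + 1), B n k ^ s * z k : ℤ) : ℚ) := by
      push_cast
      simp only [hBA]
      rw [this]
      refine Finset.sum_congr rfl fun k _ => ?_
      rw [hz k]
    exact_mod_cast h2
  have hz1 : z 1 = 2 ^ t := by
    have h1 := hInt 1
    simp only [B, Finset.sum_range_succ, Finset.sum_range_zero] at h1
    norm_num [hz0] at h1
    rw [ht, pow_add] at h1
    have h2 : (2 : ℤ) ^ s ≠ 0 := by positivity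
    exact (mul_left_cancel₀ h2 h1).symm
  -- a large prime
  obtain ⟨p, hpge, hp⟩ := Nat.exists_infinite_primes (t + 5)
  have hp2 : Prime (p : ℤ) := Nat.prime_iff_prime_int.1 hp
  obtain ⟨n, hn⟩ : ∃ n, p = n + 2 := ⟨p - 2, by omega⟩
  have hdiv : ∀ k, 2 ≤ k → k ≤ n → (p : ℤ) ∣ B n k := by
    intro k hk1 hk2
    have h1 : p ∣ (k + n).choose k := hp.dvd_choose_add (by omega) (by omega) (by omega)
    rw [Nat.add_comm] at h1
    exact Dvd.dvd.mul_left (Int.natCast_dvd_natCast.2 h1) _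
  have hsum : ∀ (e : ℕ), 2 ≤ e → ∀ w : ℕ → ℤ,
      ((p : ℤ) ^ 2) ∣ (∑ k ∈ range (n + 1), B n k ^ e * w k)
        - (B n 0 ^ e * w 0 + B n 1 ^ e * w 1) := by
    intro e he w
    obtain ⟨n', rfl⟩ : ∃ n', n = n' + 1 := ⟨n - 1, by omega⟩
    rw [Finset.sum_range_succ', Finset.sum_range_succ']
    have : ∀ x a b : ℤ, x + a + b - (b + a) = x := by intros; ring
    rw [zero_add, this]
    refine Finset.dvd_sum fun k hk => ?_
    have hk' := Finset.mem_range.1 hk
    have h1 := hdiv (k + 1 + 1) (by omega) (by omega)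
    exact Dvd.dvd.mul_right ((pow_dvd_pow_of_dvd h1 2).trans (pow_dvd_pow _ he)) _
  have e1 := hsum r (by omega) (fun _ => 1)
  have e2 := hsum s (by omega) z
  simp only [mul_one] at e1
  rw [hInt n] at e1
  have e3 := dvd_sub e1 e2
  have hB0 : B n 0 = 1 := by simp [B]
  have hB1 : B n 1 = 2 + (p : ℤ) * ((p : ℤ) - 3) := by
    simp only [B, Nat.choose_one_right, hn]
    push_cast
    ring
  set x : ℤ := (p : ℤ) * ((p : ℤ) - 3) with hx
  have e4 : ((p : ℤ) ^ 2) ∣ (2 + x) ^ s * ((2 + x) ^ t - 2 ^ t) := by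
    have : (∑ k ∈ range (n + 1), B n k ^ s * z k - (B n 0 ^ r + B n 1 ^ r))
        - (∑ k ∈ range (n + 1), B n k ^ s * z k - (B n 0 ^ s * z 0 + B n 1 ^ s * z 1))
        = - ((2 + x) ^ s * ((2 + x) ^ t - 2 ^ t)) := by
      rw [hB0, hB1, hz0, hz1, ht, pow_add (2 + x)]
      ring
    rw [this] at e3
    exact (dvd_neg).1 e3
  have hp2not : ¬ (p : ℤ) ∣ 2 + x := by
    intro h
    have h1 : (p : ℤ) ∣ 2 := by
      have h2 : (p : ℤ) ∣ x := Dvd.intro _ rfl
      have := dvd_sub h h2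
      simpa using this
    have h3 := Int.le_of_dvd (by norm_num) h1
    omega
  have e5 : ((p : ℤ) ^ 2) ∣ (2 + x) ^ t - 2 ^ t := by
    have hcop : IsCoprime ((p : ℤ) ^ 2) ((2 + x) ^ s) := by
      apply IsCoprime.pow
      exact (Prime.coprime_iff_not_dvd hp2).2 hp2not
    exact hcop.dvd_of_dvd_mul_left e4
  obtain ⟨k, hk⟩ := Polynomial.powAddExpansion (2 : ℤ) x t
  rw [hk] at e5
  have e6 : ((p : ℤ) ^ 2) ∣ (p : ℤ) * (t * 2 ^ (t - 1) * ((p : ℤ) - 3)) := by
    have h1 : ((p : ℤ) ^ 2) ∣ k * x ^ 2 :=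
      Dvd.dvd.mul_left (by rw [hx, mul_pow]; exact Dvd.intro _ rfl) _
    have h2 := dvd_sub e5 h1
    have h3 : 2 ^ t + (t : ℤ) * 2 ^ (t - 1) * x + k * x ^ 2 - 2 ^ t - k * x ^ 2
        = (p : ℤ) * (t * 2 ^ (t - 1) * ((p : ℤ) - 3)) := by
      rw [hx]; ring
    rwa [h3] at h2
  have hp0 : (p : ℤ) ≠ 0 := hp2.ne_zero
  rw [sq, mul_dvd_mul_iff_left hp0] at e6
  rcases hp2.dvd_or_dvd e6 with h | h
  · rcases hp2.dvd_or_dvd h with h | h
    · have := Int.le_of_dvd (by exact_mod_cast ht0) h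
      omega
    · have h1 := hp2.dvd_of_dvd_pow h
      have h3 := Int.le_of_dvd (by norm_num) h1
      omega
  · have h1 : (p : ℤ) ∣ 3 := by
      have := dvd_sub (dvd_refl (p : ℤ)) h
      simpa using this
    have h3 := Int.le_of_dvd (by norm_num) h1
    omega

end Pool.Agent.Results.MP_90f83a_nt.NonIntegral
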